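import Mathlib
import Pool.Agent.X19.SS.Stm

set_option autoImplicit false

open MeasureTheory ProbabilityTheory Filter Topology
open scoped ENNReal

namespace Pool.Agent.X195.SS

open Pool.Agent.X19.SS

theorem t_A4 : S_A4 := by
  intro E _ _ _ _ _ W hW
  -- a nonzero vector orthogonal to W
  obtain ⟨w, hwW, hw0⟩ : ∃ w ∈ Wᗮ, w ≠ 0 := by
    have h : Wᗮ ≠ ⊥ := by
      intro h
      exact hW ((Submodule.orthogonal_eq_bot_iff).1 h)
    exact Submodule.exists_mem_ne_zero_of_ne_bot h
  set L : StrongDual ℝ E := innerSL ℝ w with hL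
  have hLn : 0 < ‖L‖ := by
    rw [hL, innerSL_apply_norm]
    exact norm_pos_iff.2 hw0
  have hsub : (W : Set E) ⊆ L ⁻¹' {0} := by
    intro x hx
    simp only [Set.mem_preimage, Set.mem_singleton_iff, hL, innerSL_apply_apply]
    exact Submodule.inner_left_of_mem_orthogonal hx hwW
  have hmap : (stdGaussian E).map L {0} = 0 := by
    rw [IsGaussian.map_eq_gaussianReal]
    rw [variance_dual_stdGaussian]
    have hv : (‖L‖ ^ 2).toNNReal ≠ 0 := by
      have h1 : 0 < ‖L‖ ^ 2 := by positivity
      exact (Real.toNNReal_pos.2 h1).ne'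
    have := nullSingletonClass_gaussianReal (μ := (stdGaussian E)[L]) hv
    exact measure_singleton _
  have h2 : stdGaussian E (L ⁻¹' {0}) = 0 := by
    rw [← Measure.map_apply L.continuous.measurable (measurableSet_singleton _)]
    exact hmap
  exact measure_mono_null hsub h2

theorem null_sub (hB1 : S_B1) (K : Type) [RCLike K] [MeasurableSpace K] [BorelSpace K] (ι : Type) [Fintype ι]
    (V : Submodule K (ι → K)) (hV : V ≠ ⊤) : gK K ι (V : Set (ι → K)) = 0 := by
  have hm : Measurable (WithLp.toLp 2 : (ι → K) → EuclideanSpace K ι) := by fun_prop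
  let W : Submodule ℝ (EuclideanSpace K ι) :=
    ((V.comap (WithLp.linearEquiv 2 K (ι → K)).toLinearMap).restrictScalars ℝ)
  have hW : W ≠ ⊤ := by
    intro h
    apply hV
    rw [eq_top_iff]
    intro x _
    have : (WithLp.toLp 2 x : EuclideanSpace K ι) ∈ W := by rw [h]; trivial
    simpa [W] using this
  have h := t_A4 (EuclideanSpace K ι) W hW
  rw [← hB1 K ι, Measure.map_apply hm (W.closed_of_finiteDimensional.measurableSet)] at h
  have heq : (WithLp.toLp 2 : (ι → K) → EuclideanSpace K ι) ⁻¹' (W : Set (EuclideanSpace K ι)) = (V : Set (ι → K)) := by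
    ext x
    simp [W]
  rwa [heq] at h

instance isProb_gK (K : Type) [RCLike K] [MeasurableSpace K] [BorelSpace K] (ι : Type) [Fintype ι] :
    IsProbabilityMeasure (gK K ι) := by
  unfold gK; infer_instance

theorem t_D2 (hB1 : S_B1) : S_D2 := by
  intro K _ _ _ m ι _
  induction m with
  | zero =>
    intro _
    refine ae_of_all _ fun S => linearIndependent_empty_type
  | succ m ih =>
    intro hm
    have ih' := ih (by omega)
    have hmp := measurePreserving_piFinSuccAbove (fun _ : Fin (m+1) => gK K ι) 0
    set s : Set ((ι → K) × (Fin m → ι → K)) :=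
      {p | LinearIndependent K (Fin.cons p.1 p.2 : Fin (m+1) → ι → K)} with hs
    have hcont : Continuous fun p : (ι → K) × (Fin m → ι → K) =>
        (Fin.cons p.1 p.2 : Fin (m+1) → ι → K) := by
      refine continuous_pi fun i => ?_
      refine Fin.cases ?_ (fun j => ?_) i
      · simpa using continuous_fst
      · simp only [Fin.cons_succ]
        exact (continuous_apply j).comp continuous_snd
    have hsm : MeasurableSet s := by
      have : IsOpen s := by
        have h := (isOpen_setOfPred_linearIndependent (𝕜 := K) (E := ι → K) (ι := Fin (m+1)))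
        exact h.preimage hcont
      exact this.measurableSet
    have hnull : ((gK K ι).prod (Measure.pi fun _ : Fin m => gK K ι)) sᶜ = 0 := by
      rw [Measure.prod_apply_symm hsm.compl]
      apply lintegral_eq_zero_of_ae_eq_zero
      filter_upwards [ih'] with v hv
      have hne : Submodule.span K (Set.range v) ≠ ⊤ := by
        intro h
        have h1 := finrank_span_eq_card hv
        rw [h, finrank_top, Module.finrank_fintype_fun_eq_card, Fintype.card_fin] at h1
        omega
      refine measure_mono_null ?_ (null_sub hB1 K ι _ hne)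
      intro x hx
      simp only [Set.mem_preimage, Set.mem_compl_iff, hs, Set.mem_ofPred_eq] at hx
      rw [linearIndependent_finCons] at hx
      by_contra hcon
      exact hx ⟨hv, hcon⟩
    have h3 : ∀ᵐ p ∂((gK K ι).prod (Measure.pi fun _ : Fin m => gK K ι)), p ∈ s := by
      rw [ae_iff]; exact hnull
    have h4 := hmp.quasiMeasurePreserving.ae h3
    filter_upwards [h4] with S hS
    have h5 : (Fin.cons ((MeasurableEquiv.piFinSuccAbove (fun _ : Fin (m+1) => ι → K) 0) S).1
      ((MeasurableEquiv.piFinSuccAbove (fun _ : Fin (m+1) => ι → K) 0) S).2 : Fin (m+1) → ι → K) = S := by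
      funext i
      refine Fin.cases ?_ (fun j => ?_) i
      · simp [MeasurableEquiv.piFinSuccAbove]
      · simp [MeasurableEquiv.piFinSuccAbove, Fin.tail]
    rw [hs, Set.mem_ofPred_eq, h5] at hS
    exact hS

end Pool.Agent.X195.SS
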